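import Pool.Agent.Lib_helper58.MBS.Notions

/-! # Hyperbolicity modulo tori (MP_45e720_ag): definitions for the statement

The complex manifolds are as in `Pool.Agent.Lib_helper82.BR.Statement`: charted spaces over a
finite-dimensional complex normed space `E` with analytic transition maps. Invariant jet
differentials and germs of curves are defined in `Pool.Agent.Lib_helper58.MBS.Notions`. -/

set_option autoImplicit false

open Filter Topology Metric Set
open scoped Manifold ContDiff

namespace Pool.Agent.StrongLang

section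

variable (E : Type) {X : Type} [NormedAddCommGroup E] [NormedSpace ℂ E] [TopologicalSpace X]
  [ChartedSpace E X]

/-- The entire curve `f` is annihilated by all invariant jet differentials of `X` (of all orders and
all positive weights): they vanish on all germs of `f`. -/
def JetNull (f : ℂ → X) : Prop :=
  ∀ (k m : ℕ) (P : (ℂ → X) → ℂ), 0 < m → MinBrody.IsInvariantJetDifferential E k m P →
    ∀ z, P (fun w => f (w + z)) = 0

variable [IsManifold 𝓘(ℂ, E) ω X]

/-- `X` is hyperbolic at `x`: the velocities at the origin of all holomorphic maps from the unit disc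
to `X` which map the origin to a point near `x` stay in a compact set of tangent vectors (the
infinitesimal Kobayashi metric is bounded below near `x`). -/
def HyperbolicAt (x : X) : Prop :=
  ∃ V ∈ 𝓝 x, ∃ K : Set (TangentBundle 𝓘(ℂ, E) X), IsCompact K ∧ ∀ f : ℂ → X,
    MDifferentiableOn 𝓘(ℂ, ℂ) 𝓘(ℂ, E) f (ball 0 1) → f 0 ∈ V →
      BrodyRigid.velocity (E := E) f 0 ∈ K

/-- all entire curves through `x` are constant -/
def EntireConstantAt (x : X) : Prop :=
  ∀ f : ℂ → X, MDifferentiable 𝓘(ℂ, ℂ) 𝓘(ℂ, E) f → x ∈ range f → ∀ z z', f z = f z'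

/-- All holomorphic maps from complex tori `V / Λ` to `X` whose image contains `x` are constant (such
maps are the same as `Λ`-periodic holomorphic maps on `V`). -/
def TorusConstantAt (x : X) : Prop :=
  ∀ (V : Type) [NormedAddCommGroup V] [NormedSpace ℂ V] [FiniteDimensional ℂ V]
    (Λ : Submodule ℤ V) [DiscreteTopology Λ] [IsZLattice ℝ Λ] (f : V → X),
    MDifferentiable 𝓘(ℂ, V) 𝓘(ℂ, E) f → (∀ l ∈ Λ, ∀ z, f (z + l) = f z) → x ∈ range f →
      ∀ z z', f z = f z'

/-- `g` is a doubly periodic holomorphic immersion of the plane: it factors through an immersion of an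
elliptic curve `ℂ / Λ` -/
def IsTorusImmersion (g : ℂ → X) : Prop :=
  MDifferentiable 𝓘(ℂ, ℂ) 𝓘(ℂ, E) g ∧ BrodyRigid.DoublyPeriodic g ∧
    ∀ z, BrodyRigid.velocity (E := E) g z ≠ ⟨g z, (0 : E)⟩

end

section

variable {X : Type} [TopologicalSpace X]

/-- `h` is a locally uniform limit of reparametrisations of the entire curve `f` by affine maps of
the plane -/
def IsReparamLimit (f h : ℂ → X) : Prop :=
  ∃ a b : ℕ → ℂ, (∀ j, a j ≠ 0) ∧
    ∀ z, Tendsto (fun q : ℕ × ℂ => f (a q.1 * q.2 + b q.1)) (atTop ×ˢ 𝓝 z) (𝓝 (h z))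

/-- `x` is in the Zariski closure of `S` (for the map `ι` to the projective space): every
homogeneous polynomial which vanishes on `S` vanishes at `x` -/
def InZariskiClosure {n : ℕ} (ι : X → Projectivization ℂ (Fin (n + 1) → ℂ)) (S : Set X) (x : X) :
    Prop :=
  ∀ (d : ℕ) (R : MvPolynomial (Fin (n + 1)) ℂ), R.IsHomogeneous d →
    (∀ y ∈ S, MvPolynomial.eval (ι y).rep R = 0) → MvPolynomial.eval (ι x).rep R = 0

end

end Pool.Agent.StrongLang
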