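import Pool.Agent.Lib_helper80.SL.Defs
import Pool.Agent.Lib_helper80.SL.Notions

/-! # Hyperbolicity modulo tori (MP_45e720_ag): definitions for the second part

A quasi-plurisubharmonic function which vanishes exactly on the image of a doubly periodic immersed
curve `g`, without projective embedding: locally the product of the norms of defining functions of
the branches of `g (ℂ)`, glued by maxima. -/

set_option autoImplicit false

open Filter Topology Metric Set

namespace Pool.Agent.SL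

open Pool.Agent.BR Pool.Agent.MBS

section

variable {E X : Type} [NormedAddCommGroup E] [NormedSpace ℂ E] [MetricSpace X]

/-- the periods of `g` -/
def Per (g : ℂ → X) : Set ℂ := {l | ∀ z, g (z + l) = g z}

/-- `F` is a defining function on `V` of the branch of the curve `g` near `w`, comparable with the
distance to the branch; `T y` is the parameter of a nearly nearest point of the branch. -/
structure Br (A : Cha E X) (g : ℂ → X) (w : ℂ) (δ : ℝ) (V : Set X) (F : X → E) (T : X → ℂ)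
    (C : ℝ) : Prop where
  F_an : ∀ y ∈ V, ∀ i, y ∈ (A.ch i).source →
    AnalyticAt ℂ (fun ξ => F ((A.ch i).symm ξ)) (A.ch i y)
  T_an : ∀ y ∈ V, ∀ i, y ∈ (A.ch i).source →
    AnalyticAt ℂ (fun ξ => T ((A.ch i).symm ξ)) (A.ch i y)
  T_mem : ∀ y ∈ V, ‖T y - w‖ < δ
  low : ∀ y ∈ V, dist y (g (T y)) ≤ C * ‖F y‖
  up : ∀ y ∈ V, ∀ w', ‖w' - w‖ < 2 * δ → ‖F y‖ ≤ C * dist y (g w')

/-- local data of the curve `g` on the open set `V`: defining functions of all branches of
`g (ℂ)` which meet `V` -/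
structure LD (A : Cha E X) (g : ℂ → X) (V : Set X) (S : Finset ℂ) (δ : ℝ) (F : ℂ → X → E)
    (T : ℂ → X → ℂ) (C : ℝ) : Prop where
  opn : IsOpen V
  δ_pos : 0 < δ
  C_pos : 0 < C
  br : ∀ w ∈ S, Br A g w δ V (F w) (T w) C
  sep : ∀ w ∈ S, ∀ w' ∈ S, ∀ l ∈ Per g, ‖w' - w - l‖ < 2 * δ → w' = w
  cov : ∀ w, g w ∈ V → ∃ w' ∈ S, ∃ l ∈ Per g, ‖w - w' - l‖ < δ
  inj : ∀ w w', g w = g w' → ‖w - w'‖ < 4 * δ → w = w'

/-- the product of the norms -/
noncomputable def prd (S : Finset ℂ) (F : ℂ → X → E) (y : X) : ℝ := ∏ w ∈ S, ‖F w y‖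

/-- the functions `F w`, `w ∈ S`, are holomorphic on `V` -/
def AnOn (A : Cha E X) (V : Set X) (S : Finset ℂ) (F : ℂ → X → E) : Prop :=
  ∀ w ∈ S, ∀ y ∈ V, ∀ i, y ∈ (A.ch i).source →
    AnalyticAt ℂ (fun ξ => F w ((A.ch i).symm ξ)) (A.ch i y)

/-- the square of the euclidean distance of `y` from `x₀` in the chart `i`, in units of `R ^ 2` -/
noncomputable def phi (A : Cha E X) {N : ℕ} (e : E ≃L[ℂ] EuclideanSpace ℂ (Fin N)) (i : A.ι)
    (x₀ : X) (R : ℝ) (y : X) : ℝ :=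
  (‖e (A.ch i y - A.ch i x₀)‖ / R) ^ 2

/-- the closed euclidean ball of radius `R` in the chart `i` is in `V` and in the core -/
structure Rad (A : Cha E X) {N : ℕ} (e : E ≃L[ℂ] EuclideanSpace ℂ (Fin N)) (i : A.ι) (x₀ : X)
    (V : Set X) (R : ℝ) : Prop where
  pos : 0 < R
  mem : x₀ ∈ A.W i
  tgt : ∀ ξ, ‖e (ξ - A.ch i x₀)‖ ≤ R → ξ ∈ (A.ch i).target
  sub : ∀ ξ, ‖e (ξ - A.ch i x₀)‖ ≤ R → (A.ch i).symm ξ ∈ V ∩ A.W i

open Classical in
/-- the weighted and truncated local function -/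
noncomputable def val (A : Cha E X) {N : ℕ} (e : E ≃L[ℂ] EuclideanSpace ℂ (Fin N)) (i : A.ι)
    (x₀ : X) (R K : ℝ) (S : Finset ℂ) (F : ℂ → X → E) (y : X) : ℝ :=
  if y ∈ (A.ch i).source ∧ phi A e i x₀ R y < 1 then
    prd S F y * Real.exp (-(K * phi A e i x₀ R y)) * max 0 (min 1 (4 - 4 * phi A e i x₀ R y))
  else 0

end

end Pool.Agent.SL
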