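import Pool.Agent.Lib_helper80.SL.Notions

/-! # Hyperbolicity modulo tori (MP_45e720_ag): definitions for the statement, continued -/

set_option autoImplicit false

open Filter Topology Metric Set
open scoped Manifold ContDiff

namespace Pool.Agent.StrongLang

section

variable (E : Type) {X : Type} [NormedAddCommGroup E] [NormedSpace ℂ E] [TopologicalSpace X]
  [ChartedSpace E X] {W : Type} [NormedAddCommGroup W] [NormedSpace ℂ W]

/-- `φ` is a holomorphic map from `X` to `W / Γ` (a complex torus, if `Γ` is a lattice in the complex
vector space `W`): locally it lifts to a holomorphic map from `X` to `W`. -/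
def IsTorusValued (Γ : Submodule ℤ W) (φ : X → W ⧸ Γ) : Prop :=
  ∀ x : X, ∃ F : X → W, ∀ᶠ y in 𝓝 x, MDifferentiableAt 𝓘(ℂ, E) 𝓘(ℂ, W) F y ∧
    φ y = Submodule.Quotient.mk (F y)

end

section

variable (E : Type) {X : Type} [NormedAddCommGroup E] [NormedSpace ℂ E] [TopologicalSpace X]
  [ChartedSpace E X] [IsManifold 𝓘(ℂ, E) ω X]

/-- The entire curve `h` is annihilated by all invariant jet differentials of `X` (of all orders and
positive weights) and by all symmetric differentials of `X` of positive degree, and it lies in a
fibre of every holomorphic map from `X` to a complex torus `W / Γ` (the last two conditions follow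
from the first one). -/
def IsNull (h : ℂ → X) : Prop :=
  JetNull E h ∧ BrodyRigid.Annihilated (E := E) h ∧
    ∀ (W : Type) [NormedAddCommGroup W] [NormedSpace ℂ W] [FiniteDimensional ℂ W]
      (Γ : Submodule ℤ W) [DiscreteTopology Γ] (φ : X → W ⧸ Γ), IsTorusValued E Γ φ →
      ∀ z z', φ (h z) = φ (h z')

end

end Pool.Agent.StrongLang
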