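import Pool.Agent.Lib_helper80.SL.L.A1
import Pool.Agent.Lib_helper80.SL.L.A2
import Pool.Agent.Lib_helper80.SL.L.A3
import Pool.Agent.Lib_helper80.SL.L.A4
import Pool.Agent.Lib_helper80.SL.L.A5
import Pool.Agent.Lib_helper80.SL.L.A6
import Pool.Agent.Lib_helper80.SL.L.A7
import Pool.Agent.Lib_helper80.SL.L.A8
import Pool.Agent.Lib_helper80.SL.L.B0
import Pool.Agent.Lib_helper80.SL.L.B1
import Pool.Agent.Lib_helper80.SL.L.B2
import Pool.Agent.Lib_helper80.SL.L.B3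
import Pool.Agent.Lib_helper80.SL.L.B4
import Pool.Agent.Lib_helper80.SL.L.B5
import Pool.Agent.Lib_helper80.SL.L.B6
import Pool.Agent.Lib_helper80.SL.L.B7
import Pool.Agent.Lib_helper80.SL.L.B8
import Pool.Agent.Lib_helper80.SL.L.C0
import Pool.Agent.Lib_helper80.SL.L.C1
import Pool.Agent.Lib_helper80.SL.L.C2
import Pool.Agent.Lib_helper80.SL.L.C3
import Pool.Agent.Lib_helper80.SL.L.C4
import Pool.Agent.Lib_helper80.SL.L.C5
import Pool.Agent.Lib_helper80.SL.L.D1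
import Pool.Agent.Lib_helper80.SL.L.D2
import Pool.Agent.Lib_helper80.SL.L.D3
import Pool.Agent.Lib_helper80.SL.L.J1
import Pool.Agent.Lib_helper80.SL.L.J2
import Pool.Agent.Lib_helper80.SL.L.J3
import Pool.Agent.Lib_helper80.SL.L.J4
import Pool.Agent.Lib_helper80.SL.L.W1
import Pool.Agent.Lib_helper80.SL.L.W2
import Pool.Agent.Lib_helper80.SL.L.W3
import Pool.Agent.Lib_helper80.SL.L.W4
import Pool.Agent.Lib_helper80.SL.L.F1
import Pool.Agent.Lib_helper80.SL.L.F2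
import Pool.Agent.Lib_helper80.SL.L.P1
import Pool.Agent.Lib_helper80.SL.L.P2
import Pool.Agent.Lib_helper80.SL.L.P3
import Pool.Agent.Lib_helper80.SL.L.P4
import Pool.Agent.Lib_helper80.SL.L.P5
import Pool.Agent.Lib_helper80.SL.L.P6
import Pool.Agent.Lib_helper80.SL.L.P7
import Pool.Agent.Lib_helper80.SL.L.P8
import Pool.Agent.Lib_helper80.SL.L.P9
import Pool.Agent.Lib_helper80.SL.L.P10
import Pool.Agent.Lib_helper80.SL.L.F3
import Pool.Agent.Lib_helper80.SL.L.N1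
import Pool.Agent.Lib_helper80.SL.L.N2
import Pool.Agent.Lib_helper80.SL.L.N3
import Pool.Agent.Lib_helper80.SL.L.N4
import Pool.Agent.Lib_helper80.SL.L.M1
import Pool.Agent.Lib_helper80.SL.L.M2
import Pool.Agent.Lib_helper80.SL.L.M3
import Pool.Agent.Lib_helper80.SL.L.X1
import Pool.Agent.Lib_helper80.SL.L.X2
import Pool.Agent.Lib_helper80.SL.L.X3
import Pool.Agent.Lib_helper80.SL.L.X4
import Pool.Agent.Lib_helper80.SL.L.X5
import Pool.Agent.Lib_helper80.SL.L.X6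
import Pool.Agent.Lib_helper80.SL.L.X7
import Pool.Agent.Lib_helper80.SL.L.X8
import Pool.Agent.Lib_helper80.SL.L.X9
import Pool.Agent.Lib_helper80.SL.L.Y1
import Pool.Agent.Lib_helper80.SL.L.Y2
import Pool.Agent.Lib_helper80.SL.L.Y3
import Pool.Agent.Lib_helper80.SL.L.Z1
import Pool.Agent.Lib_helper80.SL.L.Z2
import Pool.Agent.Lib_helper80.SL.Notions2
import Pool.Agent.Lib_helper58.MBS.L.FBLI
import Pool.Agent.Lib_helper58.MBS.L.FMET
import Pool.Agent.Lib_helper82.BR.Final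

/-! # Hyperbolicity modulo tori (MP_45e720_ag): final assembly -/

set_option autoImplicit false
set_option linter.unusedSectionVars false
set_option linter.unusedVariables false

open Filter Topology Metric Set
open scoped Manifold ContDiff

namespace Pool.Agent.SL

open Pool.Agent.BR Pool.Agent.MBS

section metric

variable {E X : Type} [NormedAddCommGroup E] [NormedSpace ℂ E] [FiniteDimensional ℂ E]

section

variable [MetricSpace X] [CompactSpace X] [ChartedSpace E X] [IsManifold 𝓘(ℂ, E) ω X]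

theorem torus_of_fam (A : Cha E X) (hA : ∀ i, ∃ y, A.ch i = chartAt E y) {L k' : ℕ}
    (F : A.Frm L k') (hk' : 0 < k') {k m s : ℕ} (D : IJ A k m s) {C : ℝ} (hC : 0 < C) {g : ℂ → X}
    (hg : g ∈ D.Fam C) : StrongLang.IsTorusImmersion E g := by
  obtain ⟨c, hc, hkk⟩ := fam_kk D C
  refine ⟨(holAt_iff A hA g).2 (hkk hg).1, kk_periodic F hk' hc hC (hkk hg), fun z h => ?_⟩
  refine vel_ne A hA hc (hkk hg) z ?_
  have h1 : (⟨g z, (mfderiv 𝓘(ℂ, ℂ) 𝓘(ℂ, E) g z (1 : ℂ) : E)⟩ : TangentBundle 𝓘(ℂ, E) X) =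
      ⟨g z, (0 : E)⟩ := h
  exact eq_of_heq (Bundle.TotalSpace.mk.inj h1).2

theorem torus_ne {g : ℂ → X} (hg : StrongLang.IsTorusImmersion E g) : ∃ z z', g z ≠ g z' := by
  by_contra hno
  push Not at hno
  refine hg.2.2 0 ?_
  have h1 : g = fun _ => g 0 := by
    funext z
    exact hno z 0
  have h2 : (mfderiv 𝓘(ℂ, ℂ) 𝓘(ℂ, E) g 0 : ℂ →L[ℂ] E) = 0 := by
    rw [h1]
    exact mfderiv_const
  have h3 : (mfderiv 𝓘(ℂ, ℂ) 𝓘(ℂ, E) g 0 (1 : ℂ) : E) = (0 : E) := by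
    rw [h2]
    rfl
  exact congrArg (fun v : E => (⟨g 0, v⟩ : TangentBundle 𝓘(ℂ, E) X)) h3

theorem elliptic_at {x : X} (hT : StrongLang.TorusConstantAt E x) (g : ℂ → X)
    (hg : MDifferentiable 𝓘(ℂ, ℂ) 𝓘(ℂ, E) g) (hp : BrodyRigid.DoublyPeriodic g)
    (hx : x ∈ range g) : ∀ z z', g z = g z' := by
  obtain ⟨Λ, h1, h2, h3⟩ := hp
  exact hT ℂ Λ g hg h3 hx

theorem main_dichotomy (hL : LocLip E (X := X)) (hX : BrodyRigid.PlaneAmple E X) (f : ℂ → X)
    (hf : MDifferentiable 𝓘(ℂ, ℂ) 𝓘(ℂ, E) f) (hne : ∃ z z', f z ≠ f z') :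
    (∃ (g : ℂ → X) (P : ℂ → ℂ), StrongLang.IsTorusImmersion E g ∧ Differentiable ℂ P ∧
        ∀ z, f z = g (P z)) ∨
      ∃ h : ℂ → X, BrodyRigid.IsBrodyCurve (E := E) h ∧ StrongLang.JetNull E h ∧
        (∃ z z', h z ≠ h z') ∧ StrongLang.IsReparamLimit f h := by
  by_cases hlim : ∃ h : ℂ → X, BrodyRigid.IsBrodyCurve (E := E) h ∧ StrongLang.JetNull E h ∧
        (∃ z z', h z ≠ h z') ∧ StrongLang.IsReparamLimit f h
  · exact Or.inr hlim
  · left
    obtain ⟨A, hA⟩ := exists_cha (E := E) (X := X)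
    obtain ⟨L, k', hk', ⟨F⟩⟩ := exists_frm A hA (BrodyRigid.planeAmple_iff.1 hX)
    obtain ⟨lB, LB, hB⟩ := exists_blip hL A hA
    have hfA := (holAt_iff A hA f).1 hf
    obtain ⟨k, m, s, D, C₀, hC₀, hZ⟩ := exists_zal A hA hfA (by
      intro h hR hC hJ
      by_contra hno
      push Not at hno
      obtain ⟨C, hC⟩ := hC
      have hb := brody_of_bound A hA h hC.1 C hC.2
      refine hlim ⟨h, (BrodyRigid.isBrodyCurve_iff h).2 hb, hJ, hno, rlim_seq ?_ hR⟩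
      exact continuous_iff_continuousAt.2 fun z => (hC.1 z).1)
    obtain ⟨g, hg, P, hP, hfg⟩ := entire_factor2 D hB hC₀ F hk' hfA hne hZ
    exact ⟨g, P, torus_of_fam A hA F hk' D (by positivity) hg, hP, hfg⟩

theorem main_finite (hL : LocLip E (X := X)) (hX : BrodyRigid.PlaneAmple E X)
    (hN : ∀ h : ℂ → X, BrodyRigid.IsBrodyCurve (E := E) h → StrongLang.JetNull E h →
      ∀ z z', h z = h z') :
    ∃ 𝒢 : Set (ℂ → X), 𝒢.Finite ∧ (∀ g ∈ 𝒢, StrongLang.IsTorusImmersion E g) ∧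
      (∀ f : ℂ → X, MDifferentiable 𝓘(ℂ, ℂ) 𝓘(ℂ, E) f → (∃ z z', f z ≠ f z') →
        ∃ g ∈ 𝒢, ∃ P : ℂ → ℂ, Differentiable ℂ P ∧ ∀ z, f z = g (P z)) ∧
      (∀ x : X, List.TFAE [StrongLang.HyperbolicAt E x, StrongLang.EntireConstantAt E x,
        StrongLang.TorusConstantAt E x, ∀ g ∈ 𝒢, x ∉ range g]) ∧
      List.TFAE [𝒢 = ∅, SS.BrodyHyperbolic E X, SS.NoTorusMaps E X,
        ∀ x : X, StrongLang.HyperbolicAt E x] := by
  obtain ⟨A, hA⟩ := exists_cha (E := E) (X := X)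
  obtain ⟨L, k', hk', ⟨F⟩⟩ := exists_frm A hA (BrodyRigid.planeAmple_iff.1 hX)
  obtain ⟨lB, LB, hB⟩ := exists_blip hL A hA
  obtain ⟨k, m, s, D, C₀, hC₀, hZ1, hZ2⟩ := exists_zal_all A hA (by
    intro h hC hJ
    obtain ⟨C, hC⟩ := hC
    have hb := brody_of_bound A hA h hC.1 C hC.2
    exact hN h ((BrodyRigid.isBrodyCurve_iff h).2 hb) hJ)
  have hC : 0 < 10 * C₀ := by positivity
  obtain ⟨𝒢, hfin, hsub, hrep⟩ := fam_finite D hC F hk'
  have htor : ∀ g ∈ 𝒢, StrongLang.IsTorusImmersion E g := fun g hg =>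
    torus_of_fam A hA F hk' D hC (hsub hg)
  have hfac : ∀ f : ℂ → X, MDifferentiable 𝓘(ℂ, ℂ) 𝓘(ℂ, E) f → (∃ z z', f z ≠ f z') →
      ∃ g ∈ 𝒢, ∃ P : ℂ → ℂ, Differentiable ℂ P ∧ ∀ z, f z = g (P z) := by
    intro f hf hne
    have hfA := (holAt_iff A hA f).1 hf
    obtain ⟨g, hg, P, hP, hfg⟩ := entire_factor2 D hB hC₀ F hk' hfA hne (hZ2 f hfA)
    obtain ⟨h, hh, a, b, -, hab⟩ := hrep g hg
    refine ⟨h, hh, fun z => a * P z + b, (hP.const_mul a).add_const b, fun z => ?_⟩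
    rw [hfg, hab]
  have hhyp : ∀ x : X, (∀ g ∈ 𝒢, x ∉ range g) → StrongLang.HyperbolicAt E x := by
    intro x hx
    obtain ⟨V, hV, C, hVC⟩ := localbound2 D hB hC₀ F hk' x (by
      intro g hg hxg
      obtain ⟨h, hh, a, b, ha, hab⟩ := hrep g hg
      obtain ⟨z, hz⟩ := hxg
      refine hx h hh ⟨a * z + b, ?_⟩
      rw [← hab, hz])
    obtain ⟨K, hK, hKv⟩ := vel_compact A hA C
    refine ⟨V, hV, K, hK, fun f hf hfV => ?_⟩
    have hfA := holAt_ball A hA isOpen_ball hf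
    exact hKv f (hfA 0 (mem_ball_self one_pos)) (hVC f hfA (hZ1 f hfA) hfV)
  have hell : ∀ g ∈ 𝒢, ∀ x ∈ range g, ¬ StrongLang.TorusConstantAt E x := by
    intro g hg x hx hT
    obtain ⟨z, z', hz⟩ := torus_ne (htor g hg)
    exact hz (elliptic_at hT g (htor g hg).1 (htor g hg).2.1 hx z z')
  refine ⟨𝒢, hfin, htor, hfac, fun x => ?_, ?_⟩
  · tfae_have 1 → 2 := hyp_entire
    tfae_have 2 → 3 := torus_entire
    tfae_have 3 → 4 := fun h g hg hx => hell g hg x hx h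
    tfae_have 4 → 1 := hhyp x
    tfae_finish
  · tfae_have 1 → 4 := by
      intro h x
      refine hhyp x fun g hg => ?_
      rw [h] at hg
      exact absurd hg (notMem_empty g)
    tfae_have 4 → 2 := brody_of_hyp
    tfae_have 2 → 3 := torus_of_brody
    tfae_have 3 → 1 := by
      intro h
      rw [eq_empty_iff_forall_notMem]
      intro g hg
      obtain ⟨z, z', hz⟩ := torus_ne (htor g hg)
      exact hz (elliptic_of_torus h g (htor g hg).1 (htor g hg).2.1 z z')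
    tfae_finish

end

theorem main_thm [t : TopologicalSpace X] [CompactSpace X] [T2Space X] [ChartedSpace E X]
    [IsManifold 𝓘(ℂ, E) ω X] (hX : BrodyRigid.PlaneAmple E X) :
    ∃ 𝒢 : Set (ℂ → X), (∀ g ∈ 𝒢, StrongLang.IsTorusImmersion E g) ∧
      (∀ f : ℂ → X, MDifferentiable 𝓘(ℂ, ℂ) 𝓘(ℂ, E) f → (∃ z z', f z ≠ f z') →
        (∃ g ∈ 𝒢, ∃ P : ℂ → ℂ, Differentiable ℂ P ∧ ∀ z, f z = g (P z)) ∨
        ∃ h : ℂ → X, BrodyRigid.IsBrodyCurve (E := E) h ∧ StrongLang.IsNull E h ∧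
          (∃ z z', h z ≠ h z') ∧ StrongLang.IsReparamLimit f h) ∧
      ((∀ h : ℂ → X, BrodyRigid.IsBrodyCurve (E := E) h → StrongLang.IsNull E h →
          ∀ z z', h z = h z') →
        𝒢.Finite ∧
        (∀ x : X, List.TFAE [StrongLang.HyperbolicAt E x, StrongLang.EntireConstantAt E x,
          StrongLang.TorusConstantAt E x, ∀ g ∈ 𝒢, x ∉ range g]) ∧
        List.TFAE [𝒢 = ∅, SS.BrodyHyperbolic E X, SS.NoTorusMaps E X,
          ∀ x : X, StrongLang.HyperbolicAt E x]) := by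
  have hnull : ∀ h : ℂ → X, BrodyRigid.IsBrodyCurve (E := E) h → StrongLang.JetNull E h →
      StrongLang.IsNull E h := fun h hh hJ =>
    ⟨hJ, jetnull_annihilated hh.1 hJ, fun W _ _ _ Γ _ φ hφ => jetnull_torus hh.1 hJ hφ⟩
  obtain ⟨m, hm, hL⟩ := exists_metric (E := E) (X := X)
  subst hm
  by_cases hN : ∀ h : ℂ → X, BrodyRigid.IsBrodyCurve (E := E) h → StrongLang.IsNull E h →
      ∀ z z', h z = h z'
  · obtain ⟨𝒢, h1, h2, h3, h4, h5⟩ := main_finite hL hX fun h hh hJ => hN h hh (hnull h hh hJ)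
    exact ⟨𝒢, h2, fun f hf hne => Or.inl (h3 f hf hne), fun _ => ⟨h1, h4, h5⟩⟩
  · refine ⟨{g | StrongLang.IsTorusImmersion E g}, fun g hg => hg, fun f hf hne => ?_,
      fun h => absurd h hN⟩
    rcases main_dichotomy hL hX f hf hne with ⟨g, P, h1, h2, h3⟩ | ⟨h, h1, h2, h3, h4⟩
    · exact Or.inl ⟨g, h1, P, h2, h3⟩
    · exact Or.inr ⟨h, h1, hnull h h1 h2, h3, h4⟩

end metric

end Pool.Agent.SL
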