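import Pool.Agent.Lib_helper80.SL.Defs
import Pool.Agent.Lib_helper80.SL.Notions
import Pool.Agent.Lib_helper58.MBS.L.FJDI

/-! # Hyperbolicity modulo tori (MP_45e720_ag): common imports of the blocks -/
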