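import Pool.Agent.Lib_helper58.MBS.L.BJET
import Pool.Agent.Lib_helper58.MBS.L.BCMP
import Pool.Agent.Lib_helper58.MBS.L.CGER

/-! # Hyperbolicity modulo tori (MP_45e720_ag): definitions used in the proof

Paper: /team-store/SL_Proof_helper80.md. `A : Cha E X` is a finite atlas with cores `A.W i`,
`A.loc i f` the expression of the curve `f` in the chart `i` (see Lib_helper82/BR/Defs); `BF A C` is
the set of the entire curves with velocity at most `C` in the cores, `tr w f z = f (z + w)`,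
`Ger A c`: `c` is a germ of a holomorphic curve at `0`, `jt A k i c` its `k`-jet
(see Lib_helper58/MBS/Defs). -/

set_option autoImplicit false

open Filter Topology Metric Set

namespace Pool.Agent.SL

open Pool.Agent.BR Pool.Agent.MBS

section

variable {E X : Type} [NormedAddCommGroup E] [NormedSpace ℂ E] [MetricSpace X]

/-- `f` is holomorphic on `U`, with velocity at most `C` in the cores -/
def HB (A : Cha E X) (f : ℂ → X) (U : Set ℂ) (C : ℝ) : Prop :=
  ∀ z ∈ U, A.HolAt f z ∧ ∀ i, f z ∈ A.W i → ‖deriv (A.loc i f) z‖ ≤ C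

/-- `f` is holomorphic on `U`, with velocity between `c` and `C` in the cores -/
def KL (A : Cha E X) (c C : ℝ) (f : ℂ → X) (U : Set ℂ) : Prop :=
  ∀ z ∈ U, A.HolAt f z ∧ ∀ i, f z ∈ A.W i →
    c ≤ ‖deriv (A.loc i f) z‖ ∧ ‖deriv (A.loc i f) z‖ ≤ C

/-- `g` is good near `z₀` (local version of `Cha.Uni` for one curve) -/
structure LG (A : Cha E X) (c C lam r₀ C₂ : ℝ) (g : ℂ → X) (z₀ : ℂ) : Prop where
  hol : ∀ z ∈ ball z₀ (2 * r₀), A.HolAt g z
  stay : ∀ z ∈ ball z₀ (2 * r₀), dist (g z) (g z₀) < lam / 4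
  gc : ∀ i, ball (g z₀) (lam / 2) ⊆ A.W i → GC c C C₂ (A.loc i g) z₀ r₀

/-- a finite family of invariant jet differentials of the same order `k` and weight `m`, in the
charts -/
structure IJ (A : Cha E X) (k m s : ℕ) where
  P : (ℂ → X) → Fin s → ℂ
  Q : A.ι → (Fin (k + 1) → E) → Fin s → ℂ
  pos : 0 < m
  an : ∀ i σ, σ 0 ∈ (A.ch i).target → AnalyticAt ℂ (Q i) σ
  eq : ∀ i c, Ger A c → c 0 ∈ (A.ch i).source → P c = Q i (jt A k i c)
  inv : ∀ c, Ger A c → ∀ ψ : ℂ → ℂ, AnalyticAt ℂ ψ 0 → ψ 0 = 0 →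
    P (fun z => c (ψ z)) = (deriv ψ 0) ^ m • P c
  sing : ∀ i c, Ger A c → c 0 ∈ (A.ch i).source → deriv (A.loc i c) 0 = 0 → P c = 0

namespace IJ

variable {A : Cha E X} {k m s : ℕ} (D : IJ A k m s)

/-- the values of the jet differentials on the germs of `f` -/
def PP (f : ℂ → X) (z : ℂ) : Fin s → ℂ := D.P (tr z f)

/-- the Zalcman condition: where the jet differentials are bounded on `f`, the velocity of `f` is
bounded -/
def Zal (C₀ : ℝ) (f : ℂ → X) (U : Set ℂ) : Prop :=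
  ∀ (z : ℂ) (ρ B : ℝ), 0 < ρ → 0 ≤ B → ball z ρ ⊆ U → (∀ w ∈ ball z ρ, ‖D.PP f w‖ ≤ B ^ m) →
    ∀ i, f z ∈ A.W i → ‖deriv (A.loc i f) z‖ ≤ C₀ * (B + 1 / ρ)

/-- the normalised entire curves with velocity at most `C` -/
def Fam (C : ℝ) : Set (ℂ → X) := {g | g ∈ BF A C ∧ ∀ z, ‖D.PP g z‖ = 1}

end IJ

/-- `h` is a (locally uniform) limit of affine reparametrisations of members of the sequence `f`,
the curve `f n` being considered on `U n` -/
def RLim (f : ℕ → ℂ → X) (U : ℕ → Set ℂ) (h : ℂ → X) : Prop :=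
  ∀ ε > 0, ∀ (R : ℝ) (N : ℕ), ∃ n ≥ N, ∃ a b : ℂ, a ≠ 0 ∧ ∀ z, ‖z‖ ≤ R →
    a * z + b ∈ U n ∧ dist (f n (a * z + b)) (h z) < ε

/-- `ρ` is the exponential of a quasi-plurisubharmonic function: along holomorphic curves it
satisfies the maximum principle with a majorant `|exp H|`, up to a factor which is controlled by the
area. Example: `|R(F)| / ‖F‖ ^ d` for a homogeneous polynomial `R` of degree `d` and a map to a
projective space with local lifts `F` (with `C` proportional to `d`). -/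
def QSM (A : Cha E X) (ρ : X → ℝ) (C ε₀ : ℝ) : Prop :=
  ∀ (f : ℂ → X) (z₀ : ℂ) (r v : ℝ) (H : ℂ → ℂ), 0 < r → 0 ≤ v → v * r ≤ ε₀ →
    HB A f (closedBall z₀ r) v → (∀ z ∈ closedBall z₀ r, AnalyticAt ℂ H z) →
    (∀ z, ‖z - z₀‖ = r → ρ (f z) ≤ Real.exp (H z).re) →
    ρ (f z₀) ≤ Real.exp ((H z₀).re + C * (v * r) ^ 2)

/-- the functions to which Jensen's inequality is applied -/
structure Good (A : Cha E X) (ρ : X → ℝ) (C ε₀ Lp : ℝ) : Prop where
  cont : Continuous ρ
  nonneg : ∀ x, 0 ≤ ρ x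
  le_one : ∀ x, ρ x ≤ 1
  qsm : QSM A ρ C ε₀
  lip : ∀ x y, |ρ x - ρ y| ≤ Lp * dist x y

/-- local holomorphic lifts, with values in `ℂ ^ (n + 1)`, of a map `ι` from `X` to the projective
space -/
structure Plift (A : Cha E X) (n : ℕ) (ι : X → Projectivization ℂ (Fin (n + 1) → ℂ)) : Prop where
  lift : ∀ x : X, ∃ G : X → Fin (n + 1) → ℂ, ∀ᶠ x' in 𝓝 x,
    (∃ h : G x' ≠ 0, ι x' = Projectivization.mk ℂ (G x') h) ∧
    ∀ i, x' ∈ (A.ch i).source → AnalyticAt ℂ (fun ξ => G ((A.ch i).symm ξ)) (A.ch i x')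

/-- the absolute value of the homogeneous polynomial `R` of degree `d`, divided by the `d`-th power
of the euclidean norm, as a function on `X` -/
noncomputable def rhoR {n : ℕ} (ι : X → Projectivization ℂ (Fin (n + 1) → ℂ)) (d : ℕ)
    (R : MvPolynomial (Fin (n + 1)) ℂ) (x : X) : ℝ :=
  ‖MvPolynomial.eval (ι x).rep R‖ / ‖(WithLp.toLp 2 (ι x).rep : EuclideanSpace ℂ (Fin (n + 1)))‖ ^ d

/-- the quotient of the homogeneous coordinates with the numbers `q` and `p` (independent of the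
representative) -/
noncomputable def cr {n : ℕ} (ι : X → Projectivization ℂ (Fin (n + 1) → ℂ)) (p q : Fin (n + 1))
    (x : X) : ℂ :=
  (ι x).rep q / (ι x).rep p

/-- homogenisation of degree `D` of a polynomial in two variables (the quotients of the coordinates
`q`, `r` by the coordinate `p`) -/
noncomputable def hz {n : ℕ} (p q r : Fin (n + 1)) (D : ℕ) (Φ : MvPolynomial (Fin 2) ℂ) :
    MvPolynomial (Fin (n + 1)) ℂ :=
  ∑ e ∈ Φ.support, MvPolynomial.C (MvPolynomial.coeff e Φ) *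
    (MvPolynomial.X p ^ (D - e 0 - e 1) * MvPolynomial.X q ^ (e 0) * MvPolynomial.X r ^ (e 1))

end

end Pool.Agent.SL
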